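import Mathlib

/-!
# MP_155ab0: growth of the number of distinct multinomial coefficients

`log M(n) = o(√n)`, so the limit of `log M(n)/√n` exists and is `0`; there is no constant `C > 0`.

A multinomial coefficient is determined by the exponents `v_p` of the primes in the product of the
factorials; `v_p` is nonincreasing in `p` and `v_p ≤ 2n/p`. As there are only `O(x/log x)` primes up
to `x`, the number of such sequences is `exp(o(√n))`.
-/

namespace Pool.Agent.Results.MP_155ab0_nt.SubexponentialGrowth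

open Finset Filter Topology

/-- The set of the multinomial coefficients with upper entry `n`: the integers
`n! / (i_1! ⋯ i_k!)` with `k ≥ 1`, `i_1, …, i_k ≥ 0`, `i_1 + ⋯ + i_k = n`. -/
def coeffs (n : ℕ) : Set ℕ :=
  {N | ∃ k : ℕ, 1 ≤ k ∧ ∃ i : Fin k → ℕ, ∑ j, i j = n ∧ N = Nat.multinomial univ i}

/-- `M(n)`: the number of distinct multinomial coefficients with upper entry `n`. -/
noncomputable def M (n : ℕ) : ℕ := (coeffs n).ncard

/-! ### Counting antitone functions -/

/-- The multiset of the values of `f` on `S`. -/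
def code (S : Finset ℕ) (V : ℕ) (f : ℕ → ℕ) : Sym (Fin (V + 1)) S.card :=
  ⟨S.val.map fun s => Fin.ofNat (V + 1) (f s), by simp⟩

theorem code_inj (S : Finset ℕ) (V : ℕ) (f g : ℕ → ℕ)
    (hf : ∀ s ∈ S, ∀ t ∈ S, s ≤ t → f t ≤ f s) (hg : ∀ s ∈ S, ∀ t ∈ S, s ≤ t → g t ≤ g s)
    (hfV : ∀ s ∈ S, f s ≤ V) (hgV : ∀ s ∈ S, g s ≤ V) (h : code S V f = code S V g) :
    ∀ s ∈ S, f s = g s := by
  have h1 : S.val.map f = S.val.map g := by
    have h2 := congrArg (fun x : Sym (Fin (V + 1)) S.card =>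
      Multiset.map (fun y : Fin (V + 1) => (y : ℕ)) x.1) h
    simp only [code, Multiset.map_map] at h2
    have e : ∀ k : ℕ → ℕ, (∀ s ∈ S, k s ≤ V) →
        S.val.map ((fun y : Fin (V + 1) => (y : ℕ)) ∘ fun s => Fin.ofNat (V + 1) (k s)) =
          S.val.map k := by
      intro k hk
      refine Multiset.map_congr rfl fun s hs => ?_
      simp only [Function.comp_apply, Fin.val_ofNat]
      exact Nat.mod_eq_of_lt (Nat.lt_succ_of_le (hk s hs))
    rwa [e f hfV, e g hgV] at h2
  clear h hfV hgV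
  induction S using Finset.induction_on_max with
  | empty => simp
  | insert a T ha ih =>
    have haT : a ∉ T := fun h => lt_irrefl _ (ha a h)
    rw [Finset.insert_val_of_notMem haT, Multiset.map_cons, Multiset.map_cons] at h1
    have hfa : f a ∈ g a ::ₘ T.val.map g := by
      rw [← h1]
      exact Multiset.mem_cons_self _ _
    have hga : g a ∈ f a ::ₘ T.val.map f := by
      rw [h1]
      exact Multiset.mem_cons_self _ _
    have h2 : g a ≤ f a := by
      rcases Multiset.mem_cons.1 hfa with h | h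
      · exact h.ge
      · obtain ⟨t, ht, hh⟩ := Multiset.mem_map.1 h
        rw [← hh]
        exact hg t (mem_insert_of_mem ht) a (mem_insert_self _ _) (ha t ht).le
    have h3 : f a ≤ g a := by
      rcases Multiset.mem_cons.1 hga with h | h
      · exact h.ge
      · obtain ⟨t, ht, hh⟩ := Multiset.mem_map.1 h
        rw [← hh]
        exact hf t (mem_insert_of_mem ht) a (mem_insert_self _ _) (ha t ht).le
    have h4 : f a = g a := le_antisymm h3 h2
    rw [h4, Multiset.cons_inj_right] at h1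
    intro s hs
    rcases mem_insert.1 hs with rfl | hs
    · exact h4
    · exact ih (fun s hs t ht => hf s (mem_insert_of_mem hs) t (mem_insert_of_mem ht))
        (fun s hs t ht => hg s (mem_insert_of_mem hs) t (mem_insert_of_mem ht)) h1 s hs

/-! ### The exponents -/

/-- The properties of the exponent sequence of a product of factorials. -/
structure Nice (n : ℕ) (v : ℕ → ℕ) : Prop where
  anti : ∀ p q, p.Prime → q.Prime → p ≤ q → v q ≤ v p
  bound : ∀ p, p.Prime → v p ≤ 2 * n / p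

theorem nice_factorial (n : ℕ) (p q : ℕ) (hp : p.Prime) (hq : q.Prime) (hpq : p ≤ q) :
    (n.factorial).factorization q ≤ (n.factorial).factorization p := by
  rw [Nat.factorization_factorial hp (b := n + 1) (Nat.lt_succ_of_le (Nat.log_le_self p n)),
    Nat.factorization_factorial hq (b := n + 1) (Nat.lt_succ_of_le (Nat.log_le_self q n))]
  refine Finset.sum_le_sum fun i _ => ?_
  exact Nat.div_le_div_left (Nat.pow_le_pow_left hpq i) (pow_pos hp.pos i)

theorem factorial_bound (n p : ℕ) (hp : p.Prime) :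
    p * (n.factorial).factorization p ≤ 2 * n := by
  have h1 := Nat.factorization_factorial_le_div_pred hp n
  have h2 : (p - 1) * (n.factorial).factorization p ≤ n :=
    (Nat.mul_le_mul_left _ h1).trans (Nat.mul_div_le n (p - 1))
  have h3 := hp.two_le
  have h4 : p ≤ 2 * (p - 1) := by omega
  calc p * (n.factorial).factorization p ≤ 2 * (p - 1) * (n.factorial).factorization p :=
        Nat.mul_le_mul_right _ h4
    _ = 2 * ((p - 1) * (n.factorial).factorization p) := by ring
    _ ≤ 2 * n := Nat.mul_le_mul_left _ h2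

theorem nice_prod {k : ℕ} (i : Fin k → ℕ) (n : ℕ) (hn : ∑ j, i j = n) :
    Nice n (fun p => (∏ j, (i j).factorial).factorization p) := by
  have e : ∀ p, (∏ j, (i j).factorial).factorization p =
      ∑ j, ((i j).factorial).factorization p := by
    intro p
    rw [Nat.factorization_prod fun j _ => Nat.factorial_ne_zero _, Finsupp.finsetSum_apply]
  constructor
  · intro p q hp hq hpq
    simp only [e]
    exact Finset.sum_le_sum fun j _ => nice_factorial _ p q hp hq hpq
  · intro p hp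
    simp only [e]
    rw [Nat.le_div_iff_mul_le hp.pos, mul_comm, Finset.mul_sum]
    calc ∑ j, p * ((i j).factorial).factorization p ≤ ∑ j, 2 * i j :=
          Finset.sum_le_sum fun j _ => factorial_bound _ p hp
      _ = 2 * n := by rw [← Finset.mul_sum, hn]

/-! ### The encoding -/

/-- The primes in `(x, y]`. -/
def primesIoc (x y : ℕ) : Finset ℕ := (Ioc x y).filter Nat.Prime

/-- The number of primes `q` in `(b, n]` with `v q ≥ u`. -/
def cnt (b n : ℕ) (v : ℕ → ℕ) (u : ℕ) : ℕ := ((primesIoc b n).filter fun q => u ≤ v q).card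

/-- The target of the encoding. -/
abbrev Tgt (n a b U1 U V2 V4 : ℕ) : Type :=
  ({p // p ∈ primesIoc 0 a} → Fin (2 * n + 1)) × Sym (Fin (V2 + 1)) (primesIoc a b).card ×
    ({u // u ∈ Ioc 0 U1} → Fin (n + 1)) × Sym (Fin (V4 + 1)) (Ioc U1 U).card

/-- The encoding of an exponent sequence. -/
def enc (n a b U1 U V2 V4 : ℕ) (v : ℕ → ℕ) : Tgt n a b U1 U V2 V4 :=
  (fun p => Fin.ofNat (2 * n + 1) (v p.1), code (primesIoc a b) V2 v,
    fun u => Fin.ofNat (n + 1) (cnt b n v u.1), code (Ioc U1 U) V4 (cnt b n v))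

theorem cnt_anti (b n : ℕ) (v : ℕ → ℕ) {u u' : ℕ} (h : u ≤ u') : cnt b n v u' ≤ cnt b n v u := by
  refine Finset.card_le_card fun q hq => ?_
  rw [mem_filter] at hq ⊢
  exact ⟨hq.1, h.trans hq.2⟩

theorem cnt_le (b n : ℕ) (v : ℕ → ℕ) (u : ℕ) : cnt b n v u ≤ n := by
  calc cnt b n v u ≤ (primesIoc b n).card := Finset.card_filter_le _ _
    _ ≤ (Ioc b n).card := Finset.card_filter_le _ _
    _ ≤ n := by rw [Nat.card_Ioc]; omega

theorem cnt_le' {n : ℕ} {v : ℕ → ℕ} (hv : Nice n v) (b U1 u : ℕ) (hu : U1 < u) :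
    cnt b n v u ≤ Nat.primeCounting (2 * n / (U1 + 1)) := by
  rw [← Nat.primesLE_card_eq_primeCounting]
  refine Finset.card_le_card fun q hq => ?_
  rw [mem_filter, primesIoc, mem_filter] at hq
  rw [Nat.mem_primesLE]
  refine ⟨?_, hq.1.2⟩
  have h1 := hv.bound q hq.1.2
  rw [Nat.le_div_iff_mul_le hq.1.2.pos] at h1
  rw [Nat.le_div_iff_mul_le (by omega)]
  calc q * (U1 + 1) ≤ q * v q := Nat.mul_le_mul_left _ (by omega)
    _ = v q * q := mul_comm _ _
    _ ≤ 2 * n := h1

theorem enc_inj {n a b U1 U V2 V4 : ℕ} (hU : 2 * n / (b + 1) ≤ U)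
    (hV2 : 2 * n / (a + 1) ≤ V2) (hV4 : Nat.primeCounting (2 * n / (U1 + 1)) ≤ V4)
    {v w : ℕ → ℕ} (hv : Nice n v) (hw : Nice n w)
    (h : enc n a b U1 U V2 V4 v = enc n a b U1 U V2 V4 w) :
    ∀ p, p.Prime → p ≤ n → v p = w p := by
  unfold enc at h
  rw [Prod.mk.injEq, Prod.mk.injEq, Prod.mk.injEq] at h
  obtain ⟨h1, h2, h3, h4⟩ := h
  have hle : ∀ x : ℕ → ℕ, Nice n x → ∀ p, p.Prime → x p ≤ 2 * n := fun x hx p hp =>
    (hx.bound p hp).trans (Nat.div_le_self _ _)
  have hcnt : ∀ u, 1 ≤ u → u ≤ U → cnt b n v u = cnt b n w u := by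
    intro u hu1 hu2
    rcases Nat.lt_or_ge U1 u with h5 | h5
    · refine code_inj (Ioc U1 U) V4 (cnt b n v) (cnt b n w) (fun s _ t _ hst => cnt_anti b n v hst)
        (fun s _ t _ hst => cnt_anti b n w hst) (fun s hs => ?_) (fun s hs => ?_) h4 u
        (mem_Ioc.2 ⟨h5, hu2⟩)
      · exact (cnt_le' hv b U1 s (mem_Ioc.1 hs).1).trans hV4
      · exact (cnt_le' hw b U1 s (mem_Ioc.1 hs).1).trans hV4
    · have h6 := congrFun h3 ⟨u, mem_Ioc.2 ⟨hu1, h5⟩⟩
      have h7 := congrArg (fun x : Fin (n + 1) => (x : ℕ)) h6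
      simp only [Fin.val_ofNat] at h7
      rwa [Nat.mod_eq_of_lt (Nat.lt_succ_of_le (cnt_le b n v u)),
        Nat.mod_eq_of_lt (Nat.lt_succ_of_le (cnt_le b n w u))] at h7
  have hbig : ∀ x y : ℕ → ℕ, Nice n x → Nice n y →
      (∀ u, 1 ≤ u → u ≤ U → cnt b n x u = cnt b n y u) → ∀ p, p.Prime → b < p → p ≤ n →
      x p ≤ y p := by
    intro x y hx hy hxy p hp hbp hpn
    by_contra hc
    rw [not_le] at hc
    have hu1 : 1 ≤ x p := by omega
    have hu2 : x p ≤ U := by
      refine (hx.bound p hp).trans (le_trans ?_ hU)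
      exact Nat.div_le_div_left (by omega) (by omega)
    have h5 := hxy (x p) hu1 hu2
    have h6 : (primesIoc b n).filter (fun q => x p ≤ y q) ⊂
        (primesIoc b n).filter (fun q => x p ≤ x q) := by
      rw [Finset.ssubset_iff_of_subset]
      · refine ⟨p, ?_, ?_⟩
        · rw [mem_filter, primesIoc, mem_filter, mem_Ioc]
          exact ⟨⟨⟨hbp, hpn⟩, hp⟩, le_rfl⟩
        · rw [mem_filter]
          rintro ⟨-, h7⟩
          omega
      · intro q hq
        rw [mem_filter, primesIoc, mem_filter] at hq ⊢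
        refine ⟨hq.1, ?_⟩
        have h7 : q < p := by
          by_contra h8
          rw [not_lt] at h8
          have := hy.anti p q hp hq.1.2 h8
          omega
        exact hx.anti q p hq.1.2 hp h7.le
    have h7 := Finset.card_lt_card h6
    unfold cnt at h5
    omega
  intro p hp hpn
  rcases Nat.lt_or_ge b p with hbp | hbp
  · exact le_antisymm (hbig v w hv hw hcnt p hp hbp hpn)
      (hbig w v hw hv (fun u h5 h6 => (hcnt u h5 h6).symm) p hp hbp hpn)
  · rcases Nat.lt_or_ge a p with hap | hap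
    · have hmem : ∀ s ∈ primesIoc a b, s.Prime ∧ a < s := by
        intro s hs
        rw [primesIoc, mem_filter, mem_Ioc] at hs
        exact ⟨hs.2, hs.1.1⟩
      have hbd : ∀ x : ℕ → ℕ, Nice n x → ∀ s ∈ primesIoc a b, x s ≤ V2 := by
        intro x hx s hs
        refine (hx.bound s (hmem s hs).1).trans (le_trans ?_ hV2)
        have := (hmem s hs).2
        exact Nat.div_le_div_left (by omega) (by omega)
      refine code_inj (primesIoc a b) V2 v w
        (fun s hs t ht hst => hv.anti s t (hmem s hs).1 (hmem t ht).1 hst)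
        (fun s hs t ht hst => hw.anti s t (hmem s hs).1 (hmem t ht).1 hst)
        (hbd v hv) (hbd w hw) h2 p ?_
      rw [primesIoc, mem_filter, mem_Ioc]
      exact ⟨⟨hap, hbp⟩, hp⟩
    · have hm : p ∈ primesIoc 0 a := by
        rw [primesIoc, mem_filter, mem_Ioc]
        exact ⟨⟨hp.pos, hap⟩, hp⟩
      have h6 := congrFun h1 ⟨p, hm⟩
      have h7 := congrArg (fun x : Fin (2 * n + 1) => (x : ℕ)) h6
      simp only [Fin.val_ofNat] at h7
      rwa [Nat.mod_eq_of_lt (Nat.lt_succ_of_le (hle v hv p hp)),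
        Nat.mod_eq_of_lt (Nat.lt_succ_of_le (hle w hw p hp))] at h7

theorem card_Tgt (n a b U1 U V2 V4 : ℕ) : Fintype.card (Tgt n a b U1 U V2 V4) =
    (2 * n + 1) ^ (primesIoc 0 a).card *
      ((V2 + (primesIoc a b).card).choose (primesIoc a b).card *
        ((n + 1) ^ U1 * (V4 + (Ioc U1 U).card).choose (Ioc U1 U).card)) := by
  rw [Fintype.card_prod, Fintype.card_prod, Fintype.card_prod, Fintype.card_fun, Fintype.card_fun,
    Sym.card_sym_eq_multichoose, Sym.card_sym_eq_multichoose, Fintype.card_fin, Fintype.card_fin,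
    Fintype.card_fin, Fintype.card_fin, Nat.multichoose_eq, Nat.multichoose_eq,
    Fintype.card_coe, Fintype.card_coe, Nat.card_Ioc 0 U1, Nat.sub_zero]
  have e1 : V2 + 1 + (primesIoc a b).card - 1 = V2 + (primesIoc a b).card := by omega
  have e2 : V4 + 1 + (Ioc U1 U).card - 1 = V4 + (Ioc U1 U).card := by omega
  rw [e1, e2]

theorem coeffs_spec {n N : ℕ} (hN : N ∈ coeffs n) :
    Nice n (fun p => (n.factorial / N).factorization p) ∧ N ∣ n.factorial ∧
      (∀ p, p.Prime → n < p → (n.factorial / N).factorization p = 0) := by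
  obtain ⟨k, hk, i, hi, rfl⟩ := hN
  have h1 := Nat.multinomial_spec univ i
  rw [hi] at h1
  have hpos : 0 < Nat.multinomial univ i := Nat.multinomial_pos _ _
  have h2 : n.factorial / Nat.multinomial univ i = ∏ j, (i j).factorial := by
    rw [← h1, Nat.mul_div_cancel _ hpos]
  rw [h2]
  refine ⟨nice_prod i n hi, ⟨∏ j, (i j).factorial, by rw [← h1, mul_comm]⟩, fun p hp hnp => ?_⟩
  refine Nat.factorization_eq_zero_of_not_dvd fun hd => ?_
  have h3 : p ∣ n.factorial := by
    rw [← h1]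
    exact Dvd.dvd.mul_right hd _
  rw [hp.dvd_factorial] at h3
  omega

theorem M_le {n a b U1 U V2 V4 : ℕ} (hU : 2 * n / (b + 1) ≤ U)
    (hV2 : 2 * n / (a + 1) ≤ V2) (hV4 : Nat.primeCounting (2 * n / (U1 + 1)) ≤ V4) :
    M n ≤ (2 * n + 1) ^ (primesIoc 0 a).card *
      ((V2 + (primesIoc a b).card).choose (primesIoc a b).card *
        ((n + 1) ^ U1 * (V4 + (Ioc U1 U).card).choose (Ioc U1 U).card)) := by
  rw [← card_Tgt n a b U1 U V2 V4, ← Nat.card_eq_fintype_card, ← Set.ncard_univ]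
  unfold M
  refine Set.ncard_le_ncard_of_injOn
    (fun N => enc n a b U1 U V2 V4 (fun p => (n.factorial / N).factorization p))
    (fun _ _ => Set.mem_univ _) ?_ Set.finite_univ
  intro N hN N' hN' h
  obtain ⟨h1, h2, h3⟩ := coeffs_spec hN
  obtain ⟨h1', h2', h3'⟩ := coeffs_spec hN'
  have h4 := enc_inj hU hV2 hV4 h1 h1' h
  have hf0 := Nat.factorial_ne_zero n
  have hq : n.factorial / N = n.factorial / N' := by
    refine Nat.eq_of_factorization_eq ?_ ?_ fun p => ?_
    · exact (Nat.div_pos (Nat.le_of_dvd (Nat.factorial_pos n) h2)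
        (Nat.pos_of_dvd_of_pos h2 (Nat.factorial_pos n))).ne'
    · exact (Nat.div_pos (Nat.le_of_dvd (Nat.factorial_pos n) h2')
        (Nat.pos_of_dvd_of_pos h2' (Nat.factorial_pos n))).ne'
    · by_cases hp : p.Prime
      · rcases Nat.lt_or_ge n p with h5 | h5
        · rw [h3 p hp h5, h3' p hp h5]
        · exact h4 p hp h5
      · rw [Nat.factorization_eq_zero_of_not_prime _ hp, Nat.factorization_eq_zero_of_not_prime _ hp]
  have h5 := Nat.div_div_self h2 hf0
  have h6 := Nat.div_div_self h2' hf0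
  rw [← h5, ← h6, hq]

/-! ### Estimates -/

theorem log_choose_le (V k : ℕ) (hk : 1 ≤ k) :
    Real.log ((V + k).choose k : ℝ) ≤ k * (1 + Real.log (1 + V / k)) := by
  have hk0 : (0 : ℝ) < k := by exact_mod_cast hk
  have hc : (0 : ℝ) < ((V + k).choose k : ℝ) := by
    exact_mod_cast Nat.choose_pos (by omega)
  have h1 : ((V + k).choose k : ℝ) ≤ ((V + k : ℕ) : ℝ) ^ k / (k.factorial : ℝ) :=
    Nat.choose_le_pow_div k (V + k)
  have h2 : (k : ℝ) ^ k / (k.factorial : ℝ) ≤ Real.exp k := by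
    exact Real.pow_div_factorial_le_exp k (by positivity) k
  have h3 : ((V + k : ℕ) : ℝ) ^ k / (k.factorial : ℝ) ≤ Real.exp k * (1 + V / k) ^ k := by
    have e : ((V + k : ℕ) : ℝ) ^ k / (k.factorial : ℝ) =
        (k : ℝ) ^ k / (k.factorial : ℝ) * (1 + V / k) ^ k := by
      have : ((V + k : ℕ) : ℝ) = k * (1 + V / k) := by
        push_cast
        field_simp
        ring
      rw [this, mul_pow]
      ring
    rw [e]
    gcongr
  have hpos : (0 : ℝ) < 1 + V / k := by positivity
  calc Real.log ((V + k).choose k : ℝ) ≤ Real.log (Real.exp k * (1 + V / k) ^ k) :=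
        Real.log_le_log hc (h1.trans h3)
    _ = k * (1 + Real.log (1 + V / k)) := by
        rw [Real.log_mul (Real.exp_pos _).ne' (by positivity), Real.log_exp, Real.log_pow]
        ring

theorem choose_mono {V W k l : ℕ} (hV : V ≤ W) (hk : k ≤ l) :
    (V + k).choose k ≤ (W + l).choose l := by
  calc (V + k).choose k ≤ (W + k).choose k := Nat.choose_le_choose _ (by omega)
    _ = (W + k).choose W := Nat.choose_symm_add.symm
    _ ≤ (W + l).choose W := Nat.choose_le_choose _ (by omega)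
    _ = (W + l).choose l := Nat.choose_symm_add

/-- A weak form of Chebyshev's upper bound. -/
theorem pi_le {x : ℝ} (hx : 2 ≤ x) : (Nat.primeCounting ⌊x⌋₊ : ℝ) ≤ 5 * x / Real.log x := by
  have h1 := Chebyshev.pi_le_log4_mul_div (x := x) (by linarith)
  have hlog : 0 < Real.log x := Real.log_pos (by linarith)
  have hs : Real.log (√x) = Real.log x / 2 := Real.log_sqrt (by linarith)
  rw [hs] at h1
  have hs0 : 0 < √x := Real.sqrt_pos.2 (by linarith)
  have h2 : Real.log x ≤ 2 * √x := by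
    have := Real.log_le_sub_one_of_pos hs0
    rw [hs] at this
    linarith
  have h3 : √x ≤ 2 * x / Real.log x := by
    rw [le_div_iff₀ hlog]
    calc √x * Real.log x ≤ √x * (2 * √x) := by gcongr
      _ = 2 * x := by
        rw [mul_left_comm, Real.mul_self_sqrt (by linarith)]
  have h4 : Real.log 4 ≤ 1.3863 := by
    have : Real.log 4 = 2 * Real.log 2 := by
      rw [show (4 : ℝ) = 2 ^ 2 by norm_num, Real.log_pow]
      norm_num
    rw [this]
    linarith [Real.log_two_lt_d9]
  have h5 : Real.log 4 * x / (Real.log x / 2) ≤ 3 * x / Real.log x := by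
    rw [div_div_eq_mul_div]
    refine div_le_div_of_nonneg_right ?_ hlog.le
    nlinarith
  calc (Nat.primeCounting ⌊x⌋₊ : ℝ) ≤ Real.log 4 * x / (Real.log x / 2) + √x := h1
    _ ≤ 3 * x / Real.log x + 2 * x / Real.log x := add_le_add h5 h3
    _ = 5 * x / Real.log x := by ring

theorem card_primesIoc_le (x y : ℕ) : (primesIoc x y).card ≤ Nat.primeCounting y := by
  rw [← Nat.primesLE_card_eq_primeCounting]
  refine Finset.card_le_card fun q hq => ?_
  rw [primesIoc, mem_filter, mem_Ioc] at hq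
  rw [Nat.mem_primesLE]
  exact ⟨hq.1.2, hq.2⟩

theorem log_le_two_sqrt {x : ℝ} (hx : 0 < x) : Real.log x ≤ 2 * √x := by
  have h1 := Real.log_le_sub_one_of_pos (Real.sqrt_pos.2 hx)
  rw [Real.log_sqrt hx.le] at h1
  linarith

theorem main_bound (K : ℕ) (hK : 1 ≤ K) (n : ℕ) (hn : 3 ≤ n) (h1 : 2 ≤ √(n : ℝ) / K)
    (h2 : 4 * Real.log K ≤ Real.log n) (h3 : 1 ≤ Real.log n) (h4 : Real.log n ≤ √(n : ℝ)) :
    Real.log (M n) ≤ √(n : ℝ) * (58 / √(K : ℝ)) +
      √(n : ℝ) * (5 * (10 * K + 1) / √(Real.log n)) + (4 + 4 * √(K : ℝ)) := by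
  set s : ℝ := √(n : ℝ) with hs
  set y : ℝ := Real.log n with hy
  have hn0 : (0 : ℝ) < n := by
    have : 0 < n := by omega
    exact_mod_cast this
  have hK0 : (0 : ℝ) < K := by
    have : 0 < K := by omega
    exact_mod_cast this
  have hK1 : (1 : ℝ) ≤ K := by exact_mod_cast hK
  have hs0 : 0 < s := Real.sqrt_pos.2 hn0
  have hy0 : 0 < y := by linarith
  have hss : s * s = n := Real.mul_self_sqrt hn0.le
  have hlogs : Real.log s = y / 2 := Real.log_sqrt hn0.le
  have hs2 : 2 ≤ s := by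
    calc (2 : ℝ) ≤ s / K := h1
      _ ≤ s := div_le_self hs0.le hK1
  -- the four cutoffs
  set a := ⌊s / K⌋₊ with ha
  set b := ⌊K * s⌋₊ with hb
  set U := ⌊2 * s / K⌋₊ with hU
  set U1 := ⌊s / (K * y)⌋₊ with hU1
  set V2 := ⌊2 * K * s⌋₊ with hV2
  set V4 := ⌊20 * K * s⌋₊ with hV4
  set k0 := ⌈10 * K * s / y⌉₊ with hk0
  set k1 := ⌈2 * s / K⌉₊ with hk1
  have cU : 2 * n / (b + 1) ≤ U := by
    refine Nat.le_floor ?_
    have e1 : K * s ≤ ((b + 1 : ℕ) : ℝ) := by
      have := Nat.lt_floor_add_one (K * s)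
      push_cast
      exact this.le
    calc ((2 * n / (b + 1) : ℕ) : ℝ) ≤ ((2 * n : ℕ) : ℝ) / ((b + 1 : ℕ) : ℝ) := Nat.cast_div_le
      _ ≤ ((2 * n : ℕ) : ℝ) / (K * s) := by gcongr
      _ = 2 * s / K := by
          push_cast
          rw [← hss]
          field_simp
  have cV2 : 2 * n / (a + 1) ≤ V2 := by
    refine Nat.le_floor ?_
    have e1 : s / K ≤ ((a + 1 : ℕ) : ℝ) := by
      have := Nat.lt_floor_add_one (s / K)
      push_cast
      exact this.le
    calc ((2 * n / (a + 1) : ℕ) : ℝ) ≤ ((2 * n : ℕ) : ℝ) / ((a + 1 : ℕ) : ℝ) := Nat.cast_div_le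
      _ ≤ ((2 * n : ℕ) : ℝ) / (s / K) := by gcongr
      _ = 2 * K * s := by
          push_cast
          rw [← hss]
          field_simp
  have cV4 : Nat.primeCounting (2 * n / (U1 + 1)) ≤ V4 := by
    refine Nat.le_floor ?_
    set x : ℝ := 2 * K * s * y with hx
    have hxs : s ≤ x := by
      rw [hx]
      have : (1 : ℝ) ≤ 2 * K * y := by nlinarith
      nlinarith
    have e1 : s / (K * y) ≤ ((U1 + 1 : ℕ) : ℝ) := by
      have := Nat.lt_floor_add_one (s / (K * y))
      push_cast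
      exact this.le
    have e2 : 2 * n / (U1 + 1) ≤ ⌊x⌋₊ := by
      refine Nat.le_floor ?_
      calc ((2 * n / (U1 + 1) : ℕ) : ℝ) ≤ ((2 * n : ℕ) : ℝ) / ((U1 + 1 : ℕ) : ℝ) :=
            Nat.cast_div_le
        _ ≤ ((2 * n : ℕ) : ℝ) / (s / (K * y)) := by gcongr
        _ = x := by
            push_cast
            rw [← hss, hx]
            field_simp
    have e3 : y / 2 ≤ Real.log x := by
      rw [← hlogs]
      exact Real.log_le_log hs0 hxs
    calc (Nat.primeCounting (2 * n / (U1 + 1)) : ℝ) ≤ (Nat.primeCounting ⌊x⌋₊ : ℝ) := by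
          exact_mod_cast Nat.monotone_primeCounting e2
      _ ≤ 5 * x / Real.log x := pi_le (hs2.trans hxs)
      _ ≤ 5 * x / (y / 2) := by gcongr
      _ = 20 * K * s := by
          rw [hx]
          field_simp
          ring
  have hM := M_le cU cV2 cV4
  -- cardinalities
  have cP1 : ((primesIoc 0 a).card : ℝ) ≤ 20 * (s / K) / y := by
    have e1 : y / 4 ≤ Real.log (s / K) := by
      rw [Real.log_div hs0.ne' hK0.ne', hlogs]
      linarith
    calc ((primesIoc 0 a).card : ℝ) ≤ (Nat.primeCounting a : ℝ) := by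
          exact_mod_cast card_primesIoc_le 0 a
      _ ≤ 5 * (s / K) / Real.log (s / K) := pi_le h1
      _ ≤ 5 * (s / K) / (y / 4) := by gcongr
      _ = 20 * (s / K) / y := by
          field_simp
          ring
  have cP2 : (primesIoc a b).card ≤ k0 := by
    have e0 : s ≤ K * s := by nlinarith
    have e1 : y / 2 ≤ Real.log (K * s) := by
      rw [← hlogs]
      exact Real.log_le_log hs0 e0
    have e2 : ((primesIoc a b).card : ℝ) ≤ 10 * K * s / y := by
      calc ((primesIoc a b).card : ℝ) ≤ (Nat.primeCounting b : ℝ) := by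
            exact_mod_cast card_primesIoc_le a b
        _ ≤ 5 * (K * s) / Real.log (K * s) := pi_le (hs2.trans e0)
        _ ≤ 5 * (K * s) / (y / 2) := by gcongr
        _ = 10 * K * s / y := by
            field_simp
            ring
    have e3 : ((primesIoc a b).card : ℝ) ≤ (k0 : ℝ) := e2.trans (Nat.le_ceil _)
    exact Nat.cast_le.1 e3
  have cI : (Ioc U1 U).card ≤ k1 := by
    rw [Nat.card_Ioc]
    have e1 : (U : ℝ) ≤ k1 := (Nat.floor_le (by positivity)).trans (Nat.le_ceil _)
    have e2 : U ≤ k1 := by exact_mod_cast e1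
    omega
  have hM2 : M n ≤ (2 * n + 1) ^ (primesIoc 0 a).card *
      ((V2 + k0).choose k0 * ((n + 1) ^ U1 * (V4 + k1).choose k1)) := by
    refine hM.trans ?_
    gcongr
    · exact choose_mono le_rfl cP2
    · exact choose_mono le_rfl cI
  have hk0pos : 1 ≤ k0 := Nat.one_le_iff_ne_zero.2 (Nat.ceil_pos.2 (by positivity)).ne'
  have hk1pos : 1 ≤ k1 := Nat.one_le_iff_ne_zero.2 (Nat.ceil_pos.2 (by positivity)).ne'
  have hC0 : (0 : ℝ) < ((V2 + k0).choose k0 : ℝ) := by exact_mod_cast Nat.choose_pos (by omega)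
  have hC1 : (0 : ℝ) < ((V4 + k1).choose k1 : ℝ) := by exact_mod_cast Nat.choose_pos (by omega)
  have hlogM : Real.log (M n) ≤ (primesIoc 0 a).card * Real.log (2 * n + 1) +
      (Real.log ((V2 + k0).choose k0 : ℝ) + (U1 * Real.log (n + 1) +
        Real.log ((V4 + k1).choose k1 : ℝ))) := by
    have e1 : ((primesIoc 0 a).card : ℝ) * Real.log (2 * n + 1) =
        Real.log ((2 * n + 1 : ℝ) ^ (primesIoc 0 a).card) := by rw [Real.log_pow]
    have e2 : (U1 : ℝ) * Real.log (n + 1) = Real.log ((n + 1 : ℝ) ^ U1) := by rw [Real.log_pow]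
    rw [e1, e2, ← Real.log_mul (by positivity) hC1.ne', ← Real.log_mul hC0.ne' (by positivity),
      ← Real.log_mul (by positivity) (by positivity)]
    rcases Nat.eq_zero_or_pos (M n) with h0 | h0
    · rw [h0, Nat.cast_zero, Real.log_zero]
      refine Real.log_nonneg ?_
      have : 1 ≤ (2 * n + 1) ^ (primesIoc 0 a).card *
          ((V2 + k0).choose k0 * ((n + 1) ^ U1 * (V4 + k1).choose k1)) := by
        have p1 : 0 < (V2 + k0).choose k0 := Nat.choose_pos (by omega)
        have p2 : 0 < (V4 + k1).choose k1 := Nat.choose_pos (by omega)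
        exact Nat.one_le_iff_ne_zero.2 (by positivity)
      exact_mod_cast this
    · refine Real.log_le_log (by exact_mod_cast h0) ?_
      exact_mod_cast hM2
  -- logarithms
  have hl1 : Real.log (2 * n + 1) ≤ 2 * y := by
    have e1 : (2 * n + 1 : ℝ) ≤ (n : ℝ) ^ 2 := by
      have : (3 : ℝ) ≤ n := by exact_mod_cast hn
      nlinarith
    calc Real.log (2 * n + 1) ≤ Real.log ((n : ℝ) ^ 2) := Real.log_le_log (by positivity) e1
      _ = 2 * y := by
          rw [Real.log_pow, hy]
          norm_num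
  have hl2 : Real.log (n + 1) ≤ 2 * y := by
    refine (Real.log_le_log (by positivity) ?_).trans hl1
    linarith
  have T1 : ((primesIoc 0 a).card : ℝ) * Real.log (2 * n + 1) ≤ 40 * s / K := by
    have e0 : 0 ≤ Real.log (2 * n + 1) := Real.log_nonneg (by linarith)
    calc ((primesIoc 0 a).card : ℝ) * Real.log (2 * n + 1)
        ≤ (20 * (s / K) / y) * (2 * y) := mul_le_mul cP1 hl1 e0 (by positivity)
      _ = 40 * s / K := by
          field_simp
          ring
  have T3 : (U1 : ℝ) * Real.log (n + 1) ≤ 2 * s / K := by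
    have e0 : 0 ≤ Real.log ((n : ℝ) + 1) := Real.log_nonneg (by linarith)
    have e1 : (U1 : ℝ) ≤ s / (K * y) := Nat.floor_le (by positivity)
    calc (U1 : ℝ) * Real.log (n + 1) ≤ (s / (K * y)) * (2 * y) :=
          mul_le_mul e1 hl2 e0 (by positivity)
      _ = 2 * s / K := by
          field_simp
  have hsy : 0 < √y := Real.sqrt_pos.2 hy0
  have hsy1 : 1 ≤ √y := by
    rw [Real.one_le_sqrt]
    exact h3
  have hyy : √y * √y = y := Real.mul_self_sqrt hy0.le
  have T2 : Real.log ((V2 + k0).choose k0 : ℝ) ≤ s * (5 * (10 * K + 1) / √y) := by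
    have e1 := log_choose_le V2 k0 hk0pos
    have hk0' : (0 : ℝ) < k0 := by exact_mod_cast hk0pos
    have e2 : (k0 : ℝ) ≤ (10 * K + 1) * (s / y) := by
      have e3 : (k0 : ℝ) < 10 * K * s / y + 1 := Nat.ceil_lt_add_one (by positivity)
      have e4 : 1 ≤ s / y := by
        rw [le_div_iff₀ hy0]
        linarith
      have e5 : 10 * K * s / y = 10 * K * (s / y) := by ring
      rw [e5] at e3
      linarith
    have e3 : (V2 : ℝ) / k0 ≤ y := by
      rw [div_le_iff₀ hk0']
      have e4 : (V2 : ℝ) ≤ 2 * K * s := Nat.floor_le (by positivity)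
      have e5 : 10 * K * s / y ≤ k0 := Nat.le_ceil _
      rw [div_le_iff₀ hy0] at e5
      have e6 : 0 ≤ K * s := by positivity
      linarith
    have e4 : 1 + Real.log (1 + V2 / k0) ≤ 5 * √y := by
      have e5 : Real.log (1 + V2 / k0) ≤ Real.log (4 * y) := by
        refine Real.log_le_log (by positivity) ?_
        linarith
      have e6 := log_le_two_sqrt (x := 4 * y) (by linarith)
      have e7 : √(4 * y) = 2 * √y := by
        rw [Real.sqrt_mul (by norm_num), show (4 : ℝ) = 2 ^ 2 by norm_num,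
          Real.sqrt_sq (by norm_num)]
      rw [e7] at e6
      linarith
    have e5 : 0 ≤ 1 + Real.log (1 + (V2 : ℝ) / k0) := by
      have : 0 ≤ Real.log (1 + (V2 : ℝ) / k0) := Real.log_nonneg (by
        have : 0 ≤ (V2 : ℝ) / k0 := by positivity
        linarith)
      linarith
    calc Real.log ((V2 + k0).choose k0 : ℝ) ≤ k0 * (1 + Real.log (1 + V2 / k0)) := e1
      _ ≤ ((10 * K + 1) * (s / y)) * (5 * √y) := mul_le_mul e2 e4 e5 (by positivity)
      _ = 5 * (10 * K + 1) * (s / y * √y) := by ring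
      _ = 5 * (10 * K + 1) * (s / √y) := by
          have e6 : s / y * √y = s / √y := by
            rw [div_mul_eq_mul_div, div_eq_div_iff hy0.ne' hsy.ne']
            linear_combination s * hyy
          rw [e6]
      _ = s * (5 * (10 * K + 1) / √y) := by ring
  have hsK : 0 < √(K : ℝ) := Real.sqrt_pos.2 hK0
  have hsK1 : 1 ≤ √(K : ℝ) := by
    rw [Real.one_le_sqrt]
    exact hK1
  have hKK : √(K : ℝ) * √(K : ℝ) = K := Real.mul_self_sqrt hK0.le
  have T4 : Real.log ((V4 + k1).choose k1 : ℝ) ≤ (2 * s / K + 1) * (4 + 4 * √(K : ℝ)) := by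
    have e1 := log_choose_le V4 k1 hk1pos
    have hk1' : (0 : ℝ) < k1 := by exact_mod_cast hk1pos
    have e2 : (k1 : ℝ) ≤ 2 * s / K + 1 := (Nat.ceil_lt_add_one (by positivity)).le
    have e3 : (V4 : ℝ) / k1 ≤ 10 * K ^ 2 := by
      rw [div_le_iff₀ hk1']
      have e4 : (V4 : ℝ) ≤ 20 * K * s := Nat.floor_le (by positivity)
      have e5 : 2 * s / K ≤ k1 := Nat.le_ceil _
      rw [div_le_iff₀ hK0] at e5
      calc (V4 : ℝ) ≤ 20 * K * s := e4
        _ = 10 * K * (2 * s) := by ring
        _ ≤ 10 * K * (k1 * K) := by gcongr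
        _ = 10 * K ^ 2 * k1 := by ring
    have e4 : 1 + Real.log (1 + V4 / k1) ≤ 4 + 4 * √(K : ℝ) := by
      have e5 : Real.log (1 + V4 / k1) ≤ Real.log (11 * K ^ 2) := by
        refine Real.log_le_log (by positivity) ?_
        have e6 : (1 : ℝ) ≤ K ^ 2 := one_le_pow₀ hK1
        linarith
      have e6 := log_le_two_sqrt hK0
      have e7 : Real.log (11 * (K : ℝ) ^ 2) = Real.log 11 + 2 * Real.log K := by
        rw [Real.log_mul (by norm_num) (by positivity), Real.log_pow]
        norm_num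
      have e8 : Real.log 11 ≤ 3 := by
        rw [Real.log_le_iff_le_exp (by norm_num)]
        have e9 : (2.7 : ℝ) ≤ Real.exp 1 := by
          have := Real.exp_one_gt_d9
          linarith
        calc (11 : ℝ) ≤ 2.7 ^ 3 := by norm_num
          _ ≤ Real.exp 1 ^ 3 := by gcongr
          _ = Real.exp 3 := by
              rw [← Real.exp_nat_mul]
              norm_num
      rw [e7] at e5
      linarith
    have e5 : 0 ≤ 1 + Real.log (1 + (V4 : ℝ) / k1) := by
      have : 0 ≤ Real.log (1 + (V4 : ℝ) / k1) := Real.log_nonneg (by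
        have : 0 ≤ (V4 : ℝ) / k1 := by positivity
        linarith)
      linarith
    calc Real.log ((V4 + k1).choose k1 : ℝ) ≤ k1 * (1 + Real.log (1 + V4 / k1)) := e1
      _ ≤ (2 * s / K + 1) * (4 + 4 * √(K : ℝ)) := mul_le_mul e2 e4 e5 (by positivity)
  have hfin : 42 * s / K + (2 * s / K) * (4 + 4 * √(K : ℝ)) ≤ s * (58 / √(K : ℝ)) := by
    have e1 : 42 * s / K + (2 * s / K) * (4 + 4 * √(K : ℝ)) =
        s * ((50 + 8 * √(K : ℝ)) / K) := by ring
    rw [e1]
    have e2 : (50 + 8 * √(K : ℝ)) / K ≤ 58 / √(K : ℝ) := by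
      rw [div_le_div_iff₀ hK0 hsK]
      nlinarith
    gcongr
  have hsum : 40 * s / K + 2 * s / K = 42 * s / K := by ring
  have hexp : (2 * s / K + 1) * (4 + 4 * √(K : ℝ)) =
      (2 * s / K) * (4 + 4 * √(K : ℝ)) + (4 + 4 * √(K : ℝ)) := by ring
  linarith [hlogM, T1, T2, T3, T4, hfin, hsum, hexp]

/-- **MP_155ab0, Q1.** `log M(n) / √n → 0`; in particular there is no constant `C > 0` with
`log M(n) / √n → C`. -/
theorem result :
    Tendsto (fun n : ℕ => Real.log (M n) / √(n : ℝ)) atTop (𝓝 0) ∧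
    ¬ ∃ C : ℝ, 0 < C ∧ Tendsto (fun n : ℕ => Real.log (M n) / √(n : ℝ)) atTop (𝓝 C) := by
  have hlim : Tendsto (fun n : ℕ => Real.log (M n) / √(n : ℝ)) atTop (𝓝 0) := by
    have hsq : Tendsto (fun n : ℕ => √(n : ℝ)) atTop atTop :=
      Real.tendsto_sqrt_atTop.comp tendsto_natCast_atTop_atTop
    have hlog : Tendsto (fun n : ℕ => Real.log (n : ℝ)) atTop atTop :=
      Real.tendsto_log_atTop.comp tendsto_natCast_atTop_atTop
    rw [Metric.tendsto_atTop']
    intro ε hε
    obtain ⟨K, hK1, hK⟩ : ∃ K : ℕ, 1 ≤ K ∧ 58 / √(K : ℝ) < ε / 3 := by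
      have h1 : ∀ᶠ K : ℕ in atTop, 58 / √(K : ℝ) < ε / 3 :=
        (hsq.const_div_atTop 58).eventually_lt_const (by linarith)
      obtain ⟨K, hK⟩ := (h1.and (eventually_ge_atTop 1)).exists
      exact ⟨K, hK.2, hK.1⟩
    have hK0 : (0 : ℝ) < K := by
      have : 0 < K := by omega
      exact_mod_cast this
    have e1 : ∀ᶠ n : ℕ in atTop, 5 * (10 * (K : ℝ) + 1) / √(Real.log n) < ε / 3 :=
      ((Real.tendsto_sqrt_atTop.comp hlog).const_div_atTop _).eventually_lt_const (by linarith)
    have e2 : ∀ᶠ n : ℕ in atTop, (4 + 4 * √(K : ℝ)) / √(n : ℝ) < ε / 3 :=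
      (hsq.const_div_atTop _).eventually_lt_const (by linarith)
    have e3 : ∀ᶠ n : ℕ in atTop, 2 ≤ √(n : ℝ) / K := (hsq.atTop_div_const hK0).eventually_ge_atTop 2
    have e4 : ∀ᶠ n : ℕ in atTop, 4 * Real.log K ≤ Real.log n := hlog.eventually_ge_atTop _
    have e5 : ∀ᶠ n : ℕ in atTop, 1 ≤ Real.log n := hlog.eventually_ge_atTop _
    have e6 : ∀ᶠ n : ℕ in atTop, Real.log (n : ℝ) ≤ √(n : ℝ) := by
      have h1 := (isLittleO_log_rpow_atTop (r := 1 / 2) (by norm_num)).bound
        (c := 1) (by norm_num)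
      have h2 := tendsto_natCast_atTop_atTop (R := ℝ) |>.eventually h1
      filter_upwards [h2, eventually_ge_atTop 1] with n hn h1n
      rw [one_mul, ← Real.sqrt_eq_rpow, Real.norm_eq_abs, Real.norm_eq_abs,
        abs_of_nonneg (Real.sqrt_nonneg _)] at hn
      exact (le_abs_self _).trans hn
    have e7 := e1.and (e2.and (e3.and (e4.and (e5.and (e6.and (eventually_ge_atTop 3))))))
    obtain ⟨N, hN⟩ := eventually_atTop.1 e7
    refine ⟨N, fun n hn => ?_⟩
    obtain ⟨f1, f2, f3, f4, f5, f6, f7⟩ := hN n hn.le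
    have hn0 : (0 : ℝ) < n := by
      have : 0 < n := by omega
      exact_mod_cast this
    have hs0 : 0 < √(n : ℝ) := Real.sqrt_pos.2 hn0
    have hmb := main_bound K hK1 n f7 f3 f4 f5 f6
    have hnn : 0 ≤ Real.log (M n) / √(n : ℝ) :=
      div_nonneg (Real.log_natCast_nonneg _) hs0.le
    rw [Real.dist_eq, sub_zero, abs_of_nonneg hnn, div_lt_iff₀ hs0]
    have g3 : 4 + 4 * √(K : ℝ) < ε / 3 * √(n : ℝ) := by
      rwa [div_lt_iff₀ hs0] at f2
    calc Real.log (M n) ≤ √(n : ℝ) * (58 / √(K : ℝ)) +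
          √(n : ℝ) * (5 * (10 * K + 1) / √(Real.log n)) + (4 + 4 * √(K : ℝ)) := hmb
      _ < √(n : ℝ) * (ε / 3) + √(n : ℝ) * (ε / 3) + ε / 3 * √(n : ℝ) := by
          gcongr
      _ = ε * √(n : ℝ) := by ring
  refine ⟨hlim, ?_⟩
  rintro ⟨C, hC, h⟩
  exact hC.ne (tendsto_nhds_unique hlim h)

end Pool.Agent.Results.MP_155ab0_nt.SubexponentialGrowth
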